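import Pool.Agent.W872.MX.StmB
import Pool.Agent.H168DD.TB

/-! Part TB for MP_a05470_co: a graph with small matching number has a small set whose removal
leaves many isolated vertices. -/

set_option autoImplicit false

namespace W657.MX

open Finset W872.MX

/-- from an involution on `T \ U` to a matching -/
lemma matching {W : Type} [Fintype W] [DecidableEq W] (R : SimpleGraph W) (T U : Finset W)
    (k : ℕ) (m : W → W) (hU : U ⊆ T) (hk : U.card + 2 * k ≤ T.card)
    (hm : ∀ x ∈ T \ U, m x ∈ T \ U ∧ m (m x) = x ∧ R.Adj x (m x)) : HasRB R T k 0 := by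
  classical
  let e := Fintype.equivFin W
  let P := (T \ U).filter (fun x => e x < e (m x))
  have hP : ∀ x ∈ P, x ∈ T \ U ∧ e x < e (m x) := fun x hx => Finset.mem_filter.1 hx
  have hcov : T \ U ⊆ P ∪ P.image m := by
    intro x hx
    obtain ⟨h1, h2, h3⟩ := hm x hx
    rcases lt_trichotomy (e x) (e (m x)) with h | h | h
    · exact Finset.mem_union_left _ (Finset.mem_filter.2 ⟨hx, h⟩)
    · exact absurd (e.injective h) h3.ne
    · apply Finset.mem_union_right
      refine Finset.mem_image.2 ⟨m x, Finset.mem_filter.2 ⟨h1, ?_⟩, h2⟩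
      rw [h2]
      exact h
  have hcard : (T \ U).card ≤ 2 * P.card := by
    calc (T \ U).card ≤ (P ∪ P.image m).card := Finset.card_le_card hcov
      _ ≤ P.card + (P.image m).card := Finset.card_union_le _ _
      _ ≤ P.card + P.card := Nat.add_le_add_left Finset.card_image_le _
      _ = 2 * P.card := by ring
  have hcard2 : (T \ U).card = T.card - U.card := Finset.card_sdiff_of_subset hU
  have hkP : k ≤ P.card := by omega
  obtain ⟨P', hP', hPc⟩ := Finset.exists_subset_card_eq hkP
  let g : Fin k → W := fun a => ((P'.equivFinOfCardEq hPc).symm a : W)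
  have hg : ∀ a, g a ∈ P := fun a => hP' ((P'.equivFinOfCardEq hPc).symm a).2
  have hginj : Function.Injective g := by
    intro a b hab
    exact (P'.equivFinOfCardEq hPc).symm.injective (Subtype.ext hab)
  have hgm : ∀ a, m (g a) ∈ T \ U ∧ m (m (g a)) = g a ∧ R.Adj (g a) (m (g a)) :=
    fun a => hm _ (hP _ (hg a)).1
  have hne : ∀ a b, g a ≠ m (g b) := by
    intro a b hab
    have h1 := (hP _ (hg a)).2
    have h2 := (hP _ (hg b)).2
    rw [hab, (hgm b).2.1] at h1
    exact absurd (lt_trans h1 h2) (lt_irrefl _)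
  let f : (Fin k ⊕ Fin 0) × Bool → W := fun p =>
    match p with
    | (Sum.inl a, false) => g a
    | (Sum.inl a, true) => m (g a)
    | (Sum.inr b, _) => b.elim0
  have hf : Function.Injective f := by
    rintro ⟨a | a, x⟩ ⟨b | b, y⟩ h
    · cases x <;> cases y
      · have : g a = g b := h
        rw [hginj this]
      · exact absurd (show g a = m (g b) from h) (hne a b)
      · exact absurd (show m (g a) = g b from h).symm (hne b a)
      · have h1 : m (g a) = m (g b) := h
        have h2 : g a = g b := by rw [← (hgm a).2.1, h1, (hgm b).2.1]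
        rw [hginj h2]
    · exact b.elim0
    · exact a.elim0
    · exact a.elim0
  refine ⟨⟨f, hf⟩, ?_, ?_, ?_⟩
  · rintro ⟨a | a, x⟩
    · cases x
      · exact (Finset.mem_sdiff.1 (hP _ (hg a)).1).1
      · exact (Finset.mem_sdiff.1 (hgm a).1).1
    · exact a.elim0
  · intro a
    exact (hgm a).2.2
  · intro b
    exact b.elim0

/-- an admissible family of odd sets -/
structure Fam {W : Type} [DecidableEq W] (R : SimpleGraph W) (T A : Finset W)
    (F : Finset (Finset W)) : Prop where
  sub : A ⊆ T
  odd : ∀ O ∈ F, Odd O.card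
  disj : ∀ O ∈ F, ∀ O' ∈ F, O ≠ O' → Disjoint O O'
  ins : ∀ O ∈ F, O ⊆ T \ A
  clos : ∀ O ∈ F, ∀ x ∈ O, ∀ y ∈ T, R.Adj x y → y ∈ O ∨ y ∈ A

lemma union_card {W : Type} [DecidableEq W] {R : SimpleGraph W} {T A : Finset W}
    {F : Finset (Finset W)} (h : Fam R T A F) : (F.biUnion id).card = ∑ O ∈ F, O.card := by
  rw [Finset.card_biUnion]
  · rfl
  · intro O hO O' hO' hne
    exact h.disj O hO O' hO' hne

lemma union_sub {W : Type} [DecidableEq W] {R : SimpleGraph W} {T A : Finset W}
    {F : Finset (Finset W)} (h : Fam R T A F) : F.biUnion id ⊆ T \ A := by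
  intro x hx
  obtain ⟨O, hO, hxO⟩ := Finset.mem_biUnion.1 hx
  exact h.ins O hO hxO

lemma sum_parity {W : Type} [DecidableEq W] {R : SimpleGraph W} {T A : Finset W}
    {F : Finset (Finset W)} (h : Fam R T A F) : (∑ O ∈ F, O.card) % 2 = F.card % 2 := by
  have h1 : ∀ O ∈ F, O.card % 2 = 1 := fun O hO => Nat.odd_iff.1 (h.odd O hO)
  rw [Finset.sum_nat_mod, Finset.sum_congr rfl h1]
  simp

/-- adding the remaining vertices -/
lemma extend {W : Type} [DecidableEq W] {R : SimpleGraph W} {T A : Finset W}
    {F : Finset (Finset W)} (h : Fam R T A F)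
    (hp : (T.card + A.card + F.card) % 2 = 1) : ∃ F', Fam R T A F' ∧ F'.card = F.card + 1 := by
  obtain ⟨B, hB⟩ : ∃ B, B = (T \ A) \ F.biUnion id := ⟨_, rfl⟩
  have h1 : B.card = (T \ A).card - (F.biUnion id).card := by
    rw [hB, Finset.card_sdiff_of_subset (union_sub h)]
  have h2 : (T \ A).card = T.card - A.card := Finset.card_sdiff_of_subset h.sub
  have h3 : (F.biUnion id).card ≤ (T \ A).card := Finset.card_le_card (union_sub h)
  have h4 : A.card ≤ T.card := Finset.card_le_card h.sub
  have h5 := union_card h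
  have h6 := sum_parity h
  have hodd : Odd B.card := by
    rw [Nat.odd_iff]
    omega
  have hBne : B.Nonempty := by
    rw [← Finset.card_pos]
    exact hodd.pos
  have hBdisj : ∀ O ∈ F, Disjoint B O := by
    intro O hO
    rw [Finset.disjoint_left]
    intro x hx hxO
    rw [hB, Finset.mem_sdiff] at hx
    exact hx.2 (Finset.mem_biUnion.2 ⟨O, hO, hxO⟩)
  have hBF : B ∉ F := by
    intro hBF
    obtain ⟨x, hx⟩ := hBne
    exact Finset.disjoint_left.1 (hBdisj B hBF) hx hx
  refine ⟨insert B F, ⟨h.sub, ?_, ?_, ?_, ?_⟩, Finset.card_insert_of_notMem hBF⟩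
  · intro O hO
    rcases Finset.mem_insert.1 hO with rfl | hO
    · exact hodd
    · exact h.odd O hO
  · intro O hO O' hO' hne
    rcases Finset.mem_insert.1 hO with h7 | hO
    · rcases Finset.mem_insert.1 hO' with h8 | hO'
      · exact absurd (h7.trans h8.symm) hne
      · rw [h7]; exact hBdisj O' hO'
    · rcases Finset.mem_insert.1 hO' with h8 | hO'
      · rw [h8]; exact (hBdisj O hO).symm
      · exact h.disj O hO O' hO' hne
  · intro O hO
    rcases Finset.mem_insert.1 hO with h7 | hO
    · rw [h7, hB]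
      exact Finset.sdiff_subset
    · exact h.ins O hO
  · intro O hO x hx y hy hxy
    rcases Finset.mem_insert.1 hO with h7 | hO
    · rw [h7] at hx ⊢
      by_cases hyA : y ∈ A
      · exact Or.inr hyA
      · left
        rw [hB, Finset.mem_sdiff, Finset.mem_sdiff]
        refine ⟨⟨hy, hyA⟩, ?_⟩
        intro hyU
        obtain ⟨O', hO', hyO'⟩ := Finset.mem_biUnion.1 hyU
        rw [hB, Finset.mem_sdiff, Finset.mem_sdiff] at hx
        rcases h.clos O' hO' y hyO' x hx.1.1 hxy.symm with h9 | h9
        · exact hx.2 (Finset.mem_biUnion.2 ⟨O', hO', h9⟩)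
        · exact hx.1.2 h9
    · exact h.clos O hO x hx y hy hxy

/-- counting the singletons -/
lemma count {W : Type} [DecidableEq W] {R : SimpleGraph W} {T A : Finset W}
    {F : Finset (Finset W)} (h : Fam R T A F) :
    3 * F.card + A.card ≤ T.card + 2 * (T.filter (fun x => {x} ∈ F)).card := by
  obtain ⟨Q, hQ⟩ : ∃ Q, Q = T.filter (fun x => ({x} : Finset W) ∈ F) := ⟨_, rfl⟩
  rw [← hQ]
  have h2 : (T \ A).card = T.card - A.card := Finset.card_sdiff_of_subset h.sub
  have h3 : (F.biUnion id).card ≤ (T \ A).card := Finset.card_le_card (union_sub h)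
  have h4 : A.card ≤ T.card := Finset.card_le_card h.sub
  have h5 := union_card h
  have h7 : ∀ O ∈ F, 3 ≤ O.card + 2 * (if O.card = 1 then 1 else 0) := by
    intro O hO
    obtain ⟨j, hj⟩ := h.odd O hO
    split_ifs with h8
    · omega
    · omega
  have h8 : 3 * F.card ≤ ∑ O ∈ F, O.card + 2 * (F.filter (fun O => O.card = 1)).card := by
    have h9 := Finset.sum_le_sum h7
    rw [Finset.sum_const, smul_eq_mul, Finset.sum_add_distrib, ← Finset.mul_sum,
      ← Finset.card_filter] at h9
    linarith
  have h9 : (F.filter (fun O => O.card = 1)).card ≤ Q.card := by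
    have : F.filter (fun O => O.card = 1) ⊆ Q.image (fun x => ({x} : Finset W)) := by
      intro O hO
      obtain ⟨hO1, hO2⟩ := Finset.mem_filter.1 hO
      obtain ⟨x, hx⟩ := Finset.card_eq_one.1 hO2
      refine Finset.mem_image.2 ⟨x, ?_, hx.symm⟩
      rw [hQ, Finset.mem_filter]
      refine ⟨?_, ?_⟩
      · have := h.ins O hO1 (by rw [hx]; exact Finset.mem_singleton_self x)
        exact (Finset.mem_sdiff.1 this).1
      · rw [← hx]; exact hO1
    exact (Finset.card_le_card this).trans Finset.card_image_le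
  omega

theorem main : PartTB := by
  intro W _ _ R T hT
  classical
  obtain ⟨m, hm⟩ : ∃ m, m = (T.card + 1) / 3 := ⟨_, rfl⟩
  rw [← hm] at hT
  have hm2 : 2 * m ≤ T.card := by omega
  have hex : ∃ (A : Finset W) (F : Finset (Finset W)), Fam R T A F ∧
      A.card + (T.card - 2 * m) < F.card := by
    by_contra hcon
    push Not at hcon
    obtain ⟨U, f, hU, hUc, hf⟩ := H168DD.tutte_berge R T (T.card - 2 * m)
      (by rw [Nat.even_iff]; omega)
      (fun A F h1 h2 h3 h4 h5 => hcon A F ⟨h1, h2, h3, h4, h5⟩)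
    exact hT (matching R T U m f hU (by omega) hf)
  obtain ⟨A, F, hF, hc⟩ := hex
  have hex2 : ∃ F : Finset (Finset W), Fam R T A F ∧
      A.card + (T.card - 2 * m) + 2 ≤ F.card := by
    by_cases h1 : A.card + (T.card - 2 * m) + 2 ≤ F.card
    · exact ⟨F, hF, h1⟩
    · obtain ⟨F', hF', hc'⟩ := extend hF (by omega)
      exact ⟨F', hF', by omega⟩
  obtain ⟨F, hF, hc⟩ := hex2
  have hcount := count hF
  refine ⟨A, T.filter (fun x => ({x} : Finset W) ∈ F), hF.sub, Finset.filter_subset _ _, ?_, ?_,
    by omega⟩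
  · rw [Finset.disjoint_left]
    intro x hxA hx
    obtain ⟨h1, h2⟩ := Finset.mem_filter.1 hx
    exact (Finset.mem_sdiff.1 (hF.ins _ h2 (Finset.mem_singleton_self x))).2 hxA
  · intro x hx y hy hyA hxy
    obtain ⟨h1, h2⟩ := Finset.mem_filter.1 hx
    rcases hF.clos _ h2 x (Finset.mem_singleton_self x) y hy hxy with h3 | h3
    · rw [Finset.mem_singleton] at h3
      rw [h3] at hxy
      exact R.irrefl hxy
    · exact hyA h3

end W657.MX
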